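import Pool.Agent.Helper65.EP.Stm4

/-! Package Y2 of project EP: change of coordinate for degenerate pairs. -/

set_option autoImplicit false

open Topology Filter Metric Set MeasureTheory
open scoped OnePoint

namespace Pool.Agent.Helper70.EP

open Pool.Agent.H790R3.RB Pool.Agent.Helper65.EP
open Pool.Agent.W364.NM (ap ad dt ap_smul ap_ad ad_ap ap_eq_zero)

/-- the linear map with matrix `m` -/
noncomputable def Lm (m : (ℂ × ℂ) × (ℂ × ℂ)) : ℂ × ℂ →L[ℂ] ℂ × ℂ :=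
  (m.1.1 • ContinuousLinearMap.fst ℂ ℂ ℂ + m.1.2 • ContinuousLinearMap.snd ℂ ℂ ℂ).prod
    (m.2.1 • ContinuousLinearMap.fst ℂ ℂ ℂ + m.2.2 • ContinuousLinearMap.snd ℂ ℂ ℂ)

theorem Lm_apply (m : (ℂ × ℂ) × (ℂ × ℂ)) (p : ℂ × ℂ) : Lm m p = ap m p := by
  simp [Lm, ap]

theorem facMove : S_facMove := by
  intro d e x x' y y' Hf m hm hF' hx hy
  set A : ℂ × ℂ →L[ℂ] ℂ × ℂ := (dt m)⁻¹ • Lm (ad m) with hA
  have hAp : ∀ p, A p = (dt m)⁻¹ • ap (ad m) p := by
    intro p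
    rw [hA, ContinuousLinearMap.smul_apply, Lm_apply]
  have h1 : ∀ p, ap m (A p) = p := by
    intro p
    rw [hAp, ap_smul, ad_ap, smul_smul, inv_mul_cancel₀ hm, one_smul]
  have h2 : ∀ p, A (ap m p) = p := by
    intro p
    rw [hAp, ap_ad, smul_smul, inv_mul_cancel₀ hm, one_smul]
  have hA0 : ∀ p, p ≠ 0 → A p ≠ 0 := by
    intro p hp h
    apply hp
    rw [← h1 p, h]
    simp [ap]
  have hfun : (fun p => Hf ((dt m)⁻¹ • ap (ad m) p)) = fun p => Hf (A p) :=
    funext fun p => by rw [hAp]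
  rw [hfun]
  refine ⟨hF'.he, hF'.hd, ?_, ?_, ?_, ?_, ?_⟩
  · intro c p
    rw [map_smul]
    exact hF'.hom c _
  · exact hF'.dif.comp A.contDiff
  · intro p hp h0 h3
    have h4 : HasFDerivAt (fun p => Hf (A p)) ((fderiv ℂ Hf (A p)).comp A) p :=
      ((hF'.dif.differentiable one_ne_zero) (A p)).hasFDerivAt.comp p A.hasFDerivAt
    rw [h4.fderiv] at h3
    apply hF'.sim (A p) (hA0 p hp) h0
    refine ContinuousLinearMap.ext fun v => ?_
    have h5 := congrArg (fun T : ℂ × ℂ →L[ℂ] ℂ => T (ap m v)) h3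
    simp only [ContinuousLinearMap.comp_apply, ContinuousLinearMap.zero_apply] at h5
    rw [h2] at h5
    rw [h5]
    rfl
  · intro p
    have h3 := hx (A p)
    have h4 := hy (A p)
    rw [h1] at h3 h4
    rw [h3, hF'.fac, ap_smul, h4]
  · intro p hp
    have h4 := hy (A p)
    rw [h1, hp] at h4
    have h5 := hF'.nd _ (ap_eq_zero hm h4.symm)
    by_contra h6
    exact hA0 p h6 h5

end Pool.Agent.Helper70.EP
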