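import Pool.Agent.Helper65.EP.Stm4

/-! Package Y1 of project EP: polynomials and forms. -/

set_option autoImplicit false

open Topology Filter Metric Set MeasureTheory
open scoped OnePoint

namespace Pool.Agent.Helper70.EP

open Pool.Agent.H790R3.RB Pool.Agent.Helper65.EP

theorem eq_smul_one {p : ℂ × ℂ} (h : p.2 ≠ 0) : p = p.2 • ((p.1 / p.2, 1) : ℂ × ℂ) := by
  refine Prod.ext ?_ ?_
  · show p.1 = p.2 * (p.1 / p.2)
    field_simp
  · show p.2 = p.2 * 1
    ring

theorem eq_smul_inf {p : ℂ × ℂ} (h : p.2 = 0) : p = p.1 • ((1, 0) : ℂ × ℂ) := by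
  refine Prod.ext ?_ ?_
  · show p.1 = p.1 * 1
    ring
  · show p.2 = p.1 * 0
    rw [h, mul_zero]

theorem facPol : S_facPol := by
  intro d e x P Q H he hd hPQ hdeg hH hHd hx0 hx1
  obtain ⟨y, hy, hy0, hy1, -⟩ := (PQ SP e he).2 P Q hPQ hdeg
  set h : CV (d - e) := fun r => H.coeff (r.2 : ℕ) with hh
  have hpol : pol h 0 = H := by
    ext j
    rcases le_or_gt j (d - e) with hj | hj
    · have := PQ.pol_coeff h 0 ⟨j, Nat.lt_succ_of_le hj⟩
      simp only at this
      rw [this]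
    · rw [PQ.pol_coeff_gt h 0 j hj, Polynomial.coeff_eq_zero_of_natDegree_lt (by omega)]
  have hone : ∀ z : ℂ, (hF h (z, 1)).1 = H.eval z := by
    intro z
    rw [PQ.hF_one, hpol]
  have hinf : (hF h (1, 0)).1 = H.coeff (d - e) := by
    rw [PQ.hF_inf, hpol]
  have hinf0 : (hF h (1, 0)).1 ≠ 0 := by
    rw [hinf, ← hHd]
    exact Polynomial.leadingCoeff_ne_zero.2 hH.ne_zero
  have hhom : ∀ (c : ℂ) (p : ℂ × ℂ), (hF h (c • p)).1 = c ^ (d - e) * (hF h p).1 := by
    intro c p
    rw [hF_smul]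
    rfl
  have hdif : ContDiff ℂ 1 (fun p : ℂ × ℂ => (hF h p).1) :=
    ((hF_contDiff (d - e) 1).comp ((contDiff_const (c := h)).prodMk contDiff_id)).fst
  refine ⟨y, fun p => (hF h p).1, ⟨he, hd, hhom, hdif, ?_, ?_, hy⟩, hy0, hy1, hone, hinf0⟩
  · intro p hp h0 h1
    change (hF h p).1 = 0 at h0
    have hp2 : p.2 ≠ 0 := by
      intro h2
      have h3 := eq_smul_inf h2
      rw [h3, hhom] at h0
      have h4 : p.1 = 0 := by
        have h5 := (mul_eq_zero.1 h0).resolve_right hinf0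
        exact pow_eq_zero_iff (by omega) |>.1 h5
      exact hp (Prod.ext h4 h2)
    set z : ℂ := p.1 / p.2 with hz
    have hHz : H.eval z = 0 := by
      rw [eq_smul_one hp2, hhom, hone] at h0
      exact (mul_eq_zero.1 h0).resolve_left (pow_ne_zero _ hp2)
    have hsep : H.Separable := PerfectField.separable_iff_squarefree.2 hH
    have hder : H.derivative.eval z ≠ 0 := by
      have := hsep.aeval_derivative_ne_zero (S := ℂ) (x := z) (by
        rw [Polynomial.coe_aeval_eq_eval]; exact hHz)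
      rwa [Polynomial.coe_aeval_eq_eval] at this
    have g1 : HasDerivAt (fun s : ℂ => (hF h (s, p.2)).1)
        (fderiv ℂ (fun p : ℂ × ℂ => (hF h p).1) p (1, 0)) p.1 := by
      have g2 : HasFDerivAt (fun p : ℂ × ℂ => (hF h p).1)
          (fderiv ℂ (fun p : ℂ × ℂ => (hF h p).1) p) ((fun s : ℂ => (s, p.2)) p.1) :=
        ((hdif.differentiable one_ne_zero) p).hasFDerivAt
      have g8 : HasDerivAt (fun s : ℂ => ((s, p.2) : ℂ × ℂ)) (1, 0) p.1 :=
        (hasDerivAt_id p.1).prodMk (hasDerivAt_const p.1 p.2)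
      exact HasFDerivAt.comp_hasDerivAt (f := fun s : ℂ => ((s, p.2) : ℂ × ℂ)) p.1 g2 g8
    rw [h1] at g1
    have g3 : HasDerivAt (fun s : ℂ => (hF h (s, p.2)).1)
        (p.2 ^ (d - e) * (H.derivative.eval z * (1 / p.2))) p.1 := by
      have g4 : (fun s : ℂ => (hF h (s, p.2)).1) =
          fun s : ℂ => p.2 ^ (d - e) * H.eval (s / p.2) := by
        funext s
        have g5 : ((s, p.2) : ℂ × ℂ) = p.2 • ((s / p.2, 1) : ℂ × ℂ) :=
          eq_smul_one (p := (s, p.2)) hp2
        rw [g5, hhom, hone]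
      rw [g4]
      exact ((H.hasDerivAt (p.1 / p.2)).comp p.1 ((hasDerivAt_id p.1).div_const p.2)).const_mul _
    have g6 := g1.unique g3
    have g7 : p.2 ^ (d - e) * (H.derivative.eval z * (1 / p.2)) ≠ 0 :=
      mul_ne_zero (pow_ne_zero _ hp2) (mul_ne_zero hder (one_div_ne_zero hp2))
    exact g7 g6.symm
  · intro p
    show hF x p = (hF h p).1 • hF y p
    have hde : d - e + e = d := by omega
    by_cases hp2 : p.2 = 0
    · rw [eq_smul_inf hp2, hhom, hF_smul x, hF_smul y, hinf, PQ.hF_inf, PQ.hF_inf, hx0, hx1, hy0, hy1]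
      have hPe : P.natDegree ≤ e := hdeg ▸ le_max_left _ _
      have hQe : Q.natDegree ≤ e := hdeg ▸ le_max_right _ _
      have k1 : (H * P).coeff d = H.coeff (d - e) * P.coeff e := by
        conv_lhs => rw [← hde]
        exact Polynomial.coeff_mul_add_eq_of_natDegree_le hHd.le hPe
      have k2 : (H * Q).coeff d = H.coeff (d - e) * Q.coeff e := by
        conv_lhs => rw [← hde]
        exact Polynomial.coeff_mul_add_eq_of_natDegree_le hHd.le hQe
      rw [k1, k2]
      have k3 : p.1 ^ d = p.1 ^ (d - e) * p.1 ^ e := by rw [← pow_add, hde]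
      rw [k3]
      refine Prod.ext ?_ ?_
      · show _ * _ * (H.coeff (d - e) * P.coeff e) = _ * _ * (p.1 ^ e * P.coeff e)
        ring
      · show _ * _ * (H.coeff (d - e) * Q.coeff e) = _ * _ * (p.1 ^ e * Q.coeff e)
        ring
    · rw [eq_smul_one hp2, hhom, hF_smul x, hF_smul y, hone, PQ.hF_one, PQ.hF_one, hx0, hx1, hy0, hy1]
      have k3 : p.2 ^ d = p.2 ^ (d - e) * p.2 ^ e := by rw [← pow_add, hde]
      rw [k3, Polynomial.eval_mul, Polynomial.eval_mul]
      refine Prod.ext ?_ ?_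
      · simp only [Prod.smul_mk, smul_eq_mul]
        ring
      · simp only [Prod.smul_mk, smul_eq_mul]
        ring

end Pool.Agent.Helper70.EP
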